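import Mathlib

set_option autoImplicit false

namespace Pool.Agent.Results.MP_9149b8_co.StrictlyDecreasing

open Filter Topology

/-- The worst-case coherence of a family of `N` vectors of `R^M`: the largest absolute value of
the inner product of two of them with different indices. -/
noncomputable def coherence {N M : ℕ} (F : Fin N → EuclideanSpace ℝ (Fin M)) : ℝ :=
  ⨆ p : {p : Fin N × Fin N // p.1 ≠ p.2}, |inner ℝ (F p.1.1) (F p.1.2)|

/-- The optimal coherence `μ(N, M)`: the infimum (a minimum when `M ≥ 1`, see `exists_optimal`) of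
the coherences of the families of `N` unit vectors of `R^M`. -/
noncomputable def optCoherence (N M : ℕ) : ℝ :=
  sInf {c : ℝ | ∃ F : Fin N → EuclideanSpace ℝ (Fin M), (∀ i, ‖F i‖ = 1) ∧ coherence F = c}

variable {N M : ℕ}

theorem le_coherence (F : Fin N → EuclideanSpace ℝ (Fin M)) {i j : Fin N} (hij : i ≠ j) :
    |inner ℝ (F i) (F j)| ≤ coherence F :=
  le_ciSup (f := fun p : {p : Fin N × Fin N // p.1 ≠ p.2} => |inner ℝ (F p.1.1) (F p.1.2)|)
    (Set.finite_range _).bddAbove ⟨(i, j), hij⟩

theorem nonempty_pairs (hN : 2 ≤ N) : Nonempty {p : Fin N × Fin N // p.1 ≠ p.2} :=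
  ⟨⟨(⟨0, by omega⟩, ⟨1, by omega⟩), by simp⟩⟩

theorem exists_eq_coherence (hN : 2 ≤ N) (F : Fin N → EuclideanSpace ℝ (Fin M)) :
    ∃ i j, i ≠ j ∧ coherence F = |inner ℝ (F i) (F j)| := by
  have := nonempty_pairs hN
  obtain ⟨p, hp⟩ := exists_eq_ciSup_of_finite
    (f := fun p : {p : Fin N × Fin N // p.1 ≠ p.2} => |inner ℝ (F p.1.1) (F p.1.2)|)
  exact ⟨p.1.1, p.1.2, p.2, hp.symm⟩

theorem coherence_nonneg (hN : 2 ≤ N) (F : Fin N → EuclideanSpace ℝ (Fin M)) :
    0 ≤ coherence F := by
  obtain ⟨i, j, _, h⟩ := exists_eq_coherence hN F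
  rw [h]; exact abs_nonneg _

theorem continuous_coherence (hN : 2 ≤ N) :
    Continuous (fun F : Fin N → EuclideanSpace ℝ (Fin M) => coherence F) := by
  have := nonempty_pairs hN
  have h : (fun F : Fin N → EuclideanSpace ℝ (Fin M) => coherence F) =
      fun F => Finset.univ.sup' Finset.univ_nonempty
        (fun p : {p : Fin N × Fin N // p.1 ≠ p.2} => |inner ℝ (F p.1.1) (F p.1.2)|) := by
    funext F
    rw [Finset.sup'_univ_eq_ciSup]
    rfl
  rw [h]
  apply Continuous.finset_sup'_apply
  intro p _
  exact ((continuous_apply p.1.1).inner (continuous_apply p.1.2)).abs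

/-- The optimal coherence is attained. -/
theorem exists_optimal (hN : 2 ≤ N) (hM : 1 ≤ M) :
    ∃ F : Fin N → EuclideanSpace ℝ (Fin M), (∀ i, ‖F i‖ = 1) ∧ coherence F = optCoherence N M ∧
      ∀ G : Fin N → EuclideanSpace ℝ (Fin M), (∀ i, ‖G i‖ = 1) → coherence F ≤ coherence G := by
  have hc : IsCompact (Set.univ.pi fun _ : Fin N =>
      Metric.sphere (0 : EuclideanSpace ℝ (Fin M)) 1) :=
    isCompact_univ_pi fun _ => isCompact_sphere _ _
  have hne : (Set.univ.pi fun _ : Fin N =>
      Metric.sphere (0 : EuclideanSpace ℝ (Fin M)) 1).Nonempty := by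
    refine ⟨fun _ => PiLp.single 2 (⟨0, hM⟩ : Fin M) (1 : ℝ), ?_⟩
    intro i _
    simp
  obtain ⟨F, hF, hmin⟩ := hc.exists_isMinOn hne (continuous_coherence hN).continuousOn
  have hF1 : ∀ i, ‖F i‖ = 1 := fun i => by simpa using hF i (Set.mem_univ i)
  have hmin' : ∀ G : Fin N → EuclideanSpace ℝ (Fin M), (∀ i, ‖G i‖ = 1) →
      coherence F ≤ coherence G := by
    intro G hG
    exact hmin (fun i _ => by simpa using hG i)
  refine ⟨F, hF1, ?_, hmin'⟩
  apply le_antisymm
  · unfold optCoherence
    refine le_csInf ⟨coherence F, ⟨F, hF1, rfl⟩⟩ ?_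
    rintro c ⟨G, hG, rfl⟩
    exact hmin' G hG
  · apply csInf_le
    · exact ⟨0, by rintro c ⟨G, _, rfl⟩; exact coherence_nonneg hN G⟩
    · exact ⟨F, hF1, rfl⟩

/-- the embedding of `R^M` in `R^(M+1)` -/
noncomputable def emb (x : EuclideanSpace ℝ (Fin M)) : EuclideanSpace ℝ (Fin (M + 1)) :=
  WithLp.toLp 2 (Fin.cons 0 (fun i => x i))

/-- the new unit vector -/
noncomputable def ee (M : ℕ) : EuclideanSpace ℝ (Fin (M + 1)) :=
  WithLp.toLp 2 (Fin.cons 1 (fun _ => 0))

theorem inner_emb (x y : EuclideanSpace ℝ (Fin M)) :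
    inner ℝ (emb x) (emb y) = inner ℝ x y := by
  rw [PiLp.inner_apply, PiLp.inner_apply, Fin.sum_univ_succ]
  simp [emb]

theorem inner_emb_ee (x : EuclideanSpace ℝ (Fin M)) : inner ℝ (emb x) (ee M) = 0 := by
  rw [PiLp.inner_apply, Fin.sum_univ_succ]
  simp [emb, ee]

theorem inner_ee_emb (x : EuclideanSpace ℝ (Fin M)) : inner ℝ (ee M) (emb x) = 0 := by
  rw [real_inner_comm]; exact inner_emb_ee x

theorem inner_ee (M : ℕ) : inner ℝ (ee M) (ee M) = 1 := by
  rw [PiLp.inner_apply, Fin.sum_univ_succ]
  simp [ee]

/-- Tilting the vectors one after another towards the new axis. -/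
theorem tilt (F : Fin N → EuclideanSpace ℝ (Fin M)) (hF : ∀ i, ‖F i‖ = 1) (μ : ℝ) (hμ : 0 < μ)
    (hFμ : ∀ i j, i ≠ j → |inner ℝ (F i) (F j)| ≤ μ) (k : ℕ) :
    ∃ G : Fin N → EuclideanSpace ℝ (Fin (M + 1)), (∀ i, ‖G i‖ = 1) ∧
      (∀ i j, i ≠ j → |inner ℝ (G i) (G j)| ≤ μ) ∧
      (∀ i j, i ≠ j → i.val < k → |inner ℝ (G i) (G j)| < μ) ∧
      (∀ i, k ≤ i.val → G i = emb (F i)) := by
  induction k with
  | zero =>
    refine ⟨fun i => emb (F i), ?_, ?_, ?_, ?_⟩
    · intro i
      have : ‖emb (F i)‖ ^ 2 = 1 := by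
        rw [← real_inner_self_eq_norm_sq, inner_emb, real_inner_self_eq_norm_sq, hF]; norm_num
      nlinarith [norm_nonneg (emb (F i))]
    · intro i j hij
      rw [inner_emb]; exact hFμ i j hij
    · intro i j _ h; omega
    · intro i _; rfl
  | succ k ih =>
    obtain ⟨G, hG1, hGμ, hGk, hGe⟩ := ih
    by_cases hk : k < N
    · obtain ⟨κ, hκ⟩ : ∃ κ : Fin N, κ.val = k := ⟨⟨k, hk⟩, rfl⟩
      have hκe : G κ = emb (F κ) := hGe κ hκ.ge
      -- the tilted vector
      obtain ⟨φ, hφ0, hφ1, hφ⟩ : ∃ φ : ℝ, 0 < φ ∧ φ < Real.pi / 2 ∧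
          ∀ j : Fin N, j.val < k →
            |inner ℝ (Real.cos φ • emb (F κ) + Real.sin φ • ee M) (G j)| < μ := by
        have h1 : ∀ᶠ φ in 𝓝[>] (0 : ℝ), 0 < φ := eventually_mem_nhdsWithin
        have h2 : ∀ᶠ φ in 𝓝[>] (0 : ℝ), φ < Real.pi / 2 :=
          mem_nhdsWithin_of_mem_nhds (Iio_mem_nhds (by positivity))
        have h3 : ∀ᶠ φ in 𝓝[>] (0 : ℝ), ∀ j : Fin N, j.val < k →
            |inner ℝ (Real.cos φ • emb (F κ) + Real.sin φ • ee M) (G j)| < μ := by
          rw [eventually_all]
          intro j
          by_cases hj : j.val < k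
          · have hc : Continuous fun φ : ℝ =>
                |inner ℝ (Real.cos φ • emb (F κ) + Real.sin φ • ee M) (G j)| := by
              fun_prop
            have h0 : |inner ℝ (Real.cos 0 • emb (F κ) + Real.sin 0 • ee M) (G j)| < μ := by
              rw [Real.cos_zero, Real.sin_zero, one_smul, zero_smul, add_zero, ← hκe,
                real_inner_comm]
              exact hGk j κ (by intro h; rw [h, hκ] at hj; omega) hj
            have := hc.continuousAt.eventually (Iio_mem_nhds h0)
            filter_upwards [mem_nhdsWithin_of_mem_nhds this] with φ hφ _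
            exact hφ
          · exact Eventually.of_forall fun _ h => (hj h).elim
        obtain ⟨φ, h⟩ := (h1.and (h2.and h3)).exists
        exact ⟨φ, h.1, h.2.1, h.2.2⟩
      have hcos0 : 0 ≤ Real.cos φ := Real.cos_nonneg_of_neg_pi_div_two_le_of_le
        (by linarith [Real.pi_pos]) hφ1.le
      have hcos1 : Real.cos φ < 1 := by
        have := Real.cos_lt_cos_of_nonneg_of_le_pi (le_refl 0) (by linarith [Real.pi_pos]) hφ0
        rwa [Real.cos_zero] at this
      -- the inner products of the tilted vector with the other vectors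
      have hnew : ∀ j : Fin N, j ≠ κ →
          |inner ℝ (Real.cos φ • emb (F κ) + Real.sin φ • ee M) (G j)| < μ := by
        intro j hj
        by_cases hjk : j.val < k
        · exact hφ j hjk
        · have hjk' : k ≤ j.val := not_lt.mp hjk
          rw [hGe j hjk', inner_add_left, inner_smul_left, inner_smul_left, inner_emb,
            inner_ee_emb]
          simp only [conj_trivial, mul_zero, add_zero]
          rw [abs_mul, abs_of_nonneg hcos0]
          have := hFμ κ j hj.symm
          calc Real.cos φ * |inner ℝ (F κ) (F j)| ≤ Real.cos φ * μ :=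
                mul_le_mul_of_nonneg_left this hcos0
            _ < 1 * μ := mul_lt_mul_of_pos_right hcos1 hμ
            _ = μ := one_mul μ
      refine ⟨Function.update G κ (Real.cos φ • emb (F κ) + Real.sin φ • ee M), ?_, ?_, ?_, ?_⟩
      · intro i
        by_cases hi : i = κ
        · subst hi
          rw [Function.update_self]
          have hsq : ‖Real.cos φ • emb (F i) + Real.sin φ • ee M‖ ^ 2 = 1 := by
            rw [← real_inner_self_eq_norm_sq, inner_add_left, inner_add_right, inner_add_right]
            simp only [inner_smul_left, inner_smul_right, inner_emb, inner_emb_ee, inner_ee_emb,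
              inner_ee, conj_trivial]
            rw [real_inner_self_eq_norm_sq, hF]
            nlinarith [Real.sin_sq_add_cos_sq φ]
          nlinarith [norm_nonneg (Real.cos φ • emb (F i) + Real.sin φ • ee M)]
        · rw [Function.update_of_ne hi]; exact hG1 i
      · intro i j hij
        by_cases hi : i = κ
        · subst hi
          rw [Function.update_self, Function.update_of_ne hij.symm]
          exact (hnew j hij.symm).le
        · by_cases hj : j = κ
          · subst hj
            rw [Function.update_self, Function.update_of_ne hi, real_inner_comm]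
            exact (hnew i hi).le
          · rw [Function.update_of_ne hi, Function.update_of_ne hj]
            exact hGμ i j hij
      · intro i j hij hik
        by_cases hi : i = κ
        · subst hi
          rw [Function.update_self, Function.update_of_ne hij.symm]
          exact hnew j hij.symm
        · by_cases hj : j = κ
          · subst hj
            rw [Function.update_self, Function.update_of_ne hi, real_inner_comm]
            exact hnew i hi
          · rw [Function.update_of_ne hi, Function.update_of_ne hj]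
            apply hGk i j hij
            have : i.val ≠ k := fun h => hi (Fin.ext (h.trans hκ.symm))
            omega
      · intro i hi
        have hne : i ≠ κ := by intro h; rw [h, hκ] at hi; omega
        rw [Function.update_of_ne hne]
        exact hGe i (by omega)
    · refine ⟨G, hG1, hGμ, ?_, ?_⟩
      · intro i j hij _
        exact hGk i j hij (by have := i.2; omega)
      · intro i hi
        exact hGe i (by omega)

/-- fewer dimensions than vectors: some two are not orthogonal -/
theorem pos_of_lt (h : M < N) (F : Fin N → EuclideanSpace ℝ (Fin M)) (hF : ∀ i, ‖F i‖ = 1)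
    (hN : 2 ≤ N) : 0 < coherence F := by
  rcases (coherence_nonneg hN F).lt_or_eq with h0 | h0
  · exact h0
  · exfalso
    have hort : Orthonormal ℝ F := by
      refine ⟨hF, ?_⟩
      intro i j hij
      have := le_coherence F hij
      rw [← h0] at this
      exact abs_nonpos_iff.mp this
    have := hort.linearIndependent.fintype_card_le_finrank
    simp at this
    omega

/-- **The optimal coherence is strictly decreasing in the dimension.** For all `N ≥ 2` and
`1 ≤ M ≤ N - 1`, `μ(N, M + 1) < μ(N, M)`. -/
theorem result : ∀ N M : ℕ, 2 ≤ N → 1 ≤ M → M ≤ N - 1 →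
    optCoherence N (M + 1) < optCoherence N M := by
  intro N M hN hM hMN
  obtain ⟨F, hF1, hFo, hmin⟩ := exists_optimal (N := N) (M := M) hN hM
  have hpos : 0 < coherence F := pos_of_lt (by omega) F hF1 hN
  obtain ⟨G, hG1, -, hGk, -⟩ := tilt F hF1 (coherence F) hpos (fun i j hij => le_coherence F hij) N
  have hlt : coherence G < coherence F := by
    obtain ⟨i, j, hij, h⟩ := exists_eq_coherence hN G
    rw [h]
    exact hGk i j hij i.2
  have hle : optCoherence N (M + 1) ≤ coherence G := by
    apply csInf_le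
    · exact ⟨0, by rintro c ⟨G, _, rfl⟩; exact coherence_nonneg hN G⟩
    · exact ⟨G, hG1, rfl⟩
  rw [← hFo]
  exact lt_of_le_of_lt hle hlt

end Pool.Agent.Results.MP_9149b8_co.StrictlyDecreasing
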